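import Mathlib

/-!
# MP_d31508_co: fewest edges forcing induced maximum degree `k` on `(k+2)`-sets

`f(n,k) = C(n,2) - C(k+1,2) - (n-k-1)` for all `k + 2 ≤ n ≤ 2k`, and this formula fails at
`n = 2k + 1` for every `k ≥ 2`.
-/

open Finset

namespace Pool.Agent.Results.MP_d31508_co.UpToTwiceK

section defs

variable {V : Type*} (H : SimpleGraph V)

open Classical in
/-- number of neighbours of `v` in `S` -/
noncomputable def deg (v : V) (S : Finset V) : ℕ := (S.filter fun u => H.Adj v u).card

end defs

/-- `G` has property `P_k`: every set `S` of exactly `k + 2` vertices contains a vertex adjacent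
to at least `k` of the vertices of `S`. -/
def HasP {n : ℕ} (k : ℕ) (G : SimpleGraph (Fin n)) : Prop :=
  ∀ S : Finset (Fin n), S.card = k + 2 → ∃ v ∈ S, k ≤ deg G v S

/-- `f(n,k)`: the least number of edges of a graph on `n` vertices with property `P_k` -/
noncomputable def f (n k : ℕ) : ℕ :=
  sInf {e | ∃ G : SimpleGraph (Fin n), HasP k G ∧ G.edgeSet.ncard = e}

variable {V : Type*} [DecidableEq V] (H : SimpleGraph V)

/-- every vertex of `S` has at least two neighbours in `S` -/
def Good (S : Finset V) : Prop := ∀ v ∈ S, 2 ≤ deg H v S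

/-- twice the number of edges inside `S` -/
noncomputable def E (S : Finset V) : ℕ := ∑ v ∈ S, deg H v S

variable {H}

lemma deg_mono {v : V} {S T : Finset V} (h : S ⊆ T) : deg H v S ≤ deg H v T := by
  classical
  exact card_le_card (filter_subset_filter _ h)

lemma deg_insert {v u : V} {S : Finset V} (hu : u ∉ S) :
    deg H v (insert u S) = deg H v S + deg H v {u} := by
  classical
  unfold deg
  rw [filter_insert, filter_singleton]
  split_ifs with h
  · rw [card_insert_of_notMem (by simp [hu]), card_singleton]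
  · simp

lemma deg_union {v : V} {S T : Finset V} (h : Disjoint S T) :
    deg H v (S ∪ T) = deg H v S + deg H v T := by
  classical
  unfold deg
  rw [filter_union, card_union_of_disjoint (disjoint_filter_filter h)]

lemma deg_comm_singleton (u v : V) : deg H u {v} = deg H v {u} := by
  classical
  unfold deg
  rw [filter_singleton, filter_singleton]
  by_cases h : H.Adj u v
  · rw [if_pos h, if_pos h.symm]; simp
  · rw [if_neg h, if_neg (fun h' => h h'.symm)]

lemma deg_eq_sum (v : V) (S : Finset V) : deg H v S = ∑ u ∈ S, deg H v {u} := by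
  classical
  induction S using Finset.induction_on with
  | empty => simp [deg]
  | insert a s ha ih => rw [deg_insert ha, ih, sum_insert ha, add_comm]

lemma deg_self_singleton (v : V) : deg H v {v} = 0 := by
  classical
  unfold deg
  rw [filter_singleton, if_neg (H.irrefl)]
  rfl

lemma deg_erase_self (v : V) (S : Finset V) : deg H v (S.erase v) = deg H v S := by
  by_cases hv : v ∈ S
  · conv_rhs => rw [← insert_erase hv]
    rw [deg_insert (notMem_erase v S), deg_self_singleton, add_zero]
  · rw [erase_eq_of_notMem hv]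

lemma deg_le_card (v : V) (S : Finset V) : deg H v S ≤ S.card := by
  classical
  exact card_filter_le _ _

lemma deg_lt_card {v : V} {S : Finset V} (hv : v ∈ S) : deg H v S + 1 ≤ S.card := by
  have h1 := deg_le_card (H := H) v (S.erase v)
  rw [deg_erase_self, card_erase_of_mem hv] at h1
  have h2 : 0 < S.card := card_pos.2 ⟨v, hv⟩
  omega

lemma sum_deg_comm (S T : Finset V) : ∑ u ∈ S, deg H u T = ∑ v ∈ T, deg H v S := by
  simp_rw [deg_eq_sum (H := H) _ T, deg_eq_sum (H := H) _ S]
  rw [sum_comm]
  refine sum_congr rfl fun v _ => sum_congr rfl fun u _ => deg_comm_singleton u v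

lemma E_insert {v : V} {S : Finset V} (hv : v ∉ S) : E H (insert v S) = E H S + 2 * deg H v S := by
  unfold E
  rw [sum_insert hv, deg_insert hv, deg_self_singleton, add_zero]
  have h1 : ∑ x ∈ S, deg H x (insert v S) = ∑ x ∈ S, deg H x S + ∑ x ∈ S, deg H x {v} := by
    rw [← sum_add_distrib]
    exact sum_congr rfl fun x _ => deg_insert hv
  have h2 : ∑ x ∈ S, deg H x {v} = deg H v S := by
    rw [deg_eq_sum v S]
    exact sum_congr rfl fun x _ => deg_comm_singleton x v
  rw [h1, h2]
  ring

lemma E_erase {v : V} {S : Finset V} (hv : v ∈ S) : E H S = E H (S.erase v) + 2 * deg H v S := by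
  conv_lhs => rw [← insert_erase hv]
  rw [E_insert (notMem_erase v S), deg_erase_self]

lemma E_union {S T : Finset V} (h : Disjoint S T) :
    E H (S ∪ T) = E H S + E H T + 2 * ∑ t ∈ T, deg H t S := by
  unfold E
  rw [sum_union h]
  have h1 : ∑ x ∈ S, deg H x (S ∪ T) = ∑ x ∈ S, deg H x S + ∑ x ∈ S, deg H x T := by
    rw [← sum_add_distrib]
    exact sum_congr rfl fun x _ => deg_union h
  have h2 : ∑ x ∈ T, deg H x (S ∪ T) = ∑ x ∈ T, deg H x S + ∑ x ∈ T, deg H x T := by
    rw [← sum_add_distrib]
    exact sum_congr rfl fun x _ => deg_union h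
  rw [h1, h2, sum_deg_comm S T]
  ring

lemma E_le (S : Finset V) : (E H S : ℤ) ≤ S.card * (S.card - 1) := by
  unfold E
  push_cast
  calc ∑ v ∈ S, (deg H v S : ℤ) ≤ ∑ v ∈ S, ((S.card : ℤ) - 1) := by
        refine sum_le_sum fun v hv => ?_
        have := deg_lt_card (H := H) hv
        have h2 : ((deg H v S + 1 : ℕ) : ℤ) ≤ S.card := by exact_mod_cast this
        push_cast at h2
        linarith
    _ = S.card * (S.card - 1) := by rw [sum_const, nsmul_eq_mul]

lemma E_mono {S T : Finset V} (h : S ⊆ T) : E H S ≤ E H T := by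
  unfold E
  calc ∑ v ∈ S, deg H v S ≤ ∑ v ∈ S, deg H v T := sum_le_sum fun v _ => deg_mono h
    _ ≤ ∑ v ∈ T, deg H v T := sum_le_sum_of_subset h

lemma good_card {S : Finset V} (hS : Good H S) (hne : S.Nonempty) : 3 ≤ S.card := by
  obtain ⟨v, hv⟩ := hne
  have h1 := hS v hv
  have h2 := deg_lt_card (H := H) hv
  omega

lemma good_union {S T : Finset V} (hS : Good H S) (hT : Good H T) : Good H (S ∪ T) := by
  intro v hv
  rcases mem_union.1 hv with h | h
  · exact (hS v h).trans (deg_mono subset_union_left)
  · exact (hT v h).trans (deg_mono subset_union_right)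

/-- the weighted core -/
lemma core (w : V → ℕ) (X : Finset V) : ∃ C ⊆ X, (∀ v ∈ C, 2 ≤ deg H v C + w v) ∧
    E H X + 2 * ∑ v ∈ X, w v + 2 * C.card ≤ E H C + 2 * ∑ v ∈ C, w v + 2 * X.card := by
  induction X using Finset.strongInduction with
  | _ X ih =>
    by_cases h : ∀ v ∈ X, 2 ≤ deg H v X + w v
    · exact ⟨X, Subset.rfl, h, le_rfl⟩
    · push Not at h
      obtain ⟨v, hv, hlt⟩ := h
      obtain ⟨C, hC, h1, h2⟩ := ih (X.erase v) (erase_ssubset hv)
      refine ⟨C, hC.trans (erase_subset _ _), h1, ?_⟩
      rw [E_erase hv, ← add_sum_erase X w hv]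
      have h3 : (X.erase v).card + 1 = X.card := card_erase_add_one hv
      omega

/-- a set all of whose good subsets are empty spans a forest -/
lemma forest {X : Finset V} (hX : ∀ C ⊆ X, Good H C → C = ∅) (hne : X.Nonempty) :
    E H X + 2 ≤ 2 * X.card := by
  induction X using Finset.strongInduction with
  | _ X ih =>
    have hng : ¬ Good H X := fun h => hne.ne_empty (hX X Subset.rfl h)
    unfold Good at hng
    push Not at hng
    obtain ⟨v, hv, hlt⟩ := hng
    have h3 : (X.erase v).card + 1 = X.card := card_erase_add_one hv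
    rw [E_erase hv]
    rcases (X.erase v).eq_empty_or_nonempty with h | h
    · rw [h] at h3 ⊢
      have h4 : deg H v X = 0 := by
        have : deg H v X ≤ _ := le_of_eq (deg_erase_self v X).symm
        rw [h] at this
        simpa [deg] using this
      rw [h4]
      simp [E] at *
      omega
    · have h5 := ih (X.erase v) (erase_ssubset hv) (fun C hC => hX C (hC.trans (erase_subset _ _))) h
      omega

/-- if all good subsets have at most `a` elements then there are few edges -/
lemma edges_core {X : Finset V} {a : ℕ} (hX : ∀ C ⊆ X, Good H C → C.card ≤ a)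
    (ha : a ≤ X.card) : (E H X : ℤ) ≤ a * (a - 1) + 2 * (X.card - a) := by
  rcases X.eq_empty_or_nonempty with rfl | hne
  · simp only [card_empty, Nat.le_zero] at ha
    subst ha
    simp [E]
  by_cases hf : ∀ C ⊆ X, Good H C → C = ∅
  · have h1 := forest hf hne
    have h2 : (E H X : ℤ) + 2 ≤ 2 * X.card := by exact_mod_cast h1
    have h3 : (0 : ℤ) ≤ ((a : ℤ) - 1) * (a - 2) := by
      rcases Nat.lt_or_ge a 2 with h | h
      · have h' : (a : ℤ) ≤ 1 := by exact_mod_cast Nat.lt_succ_iff.1 h
        nlinarith
      · have h' : (2 : ℤ) ≤ a := by exact_mod_cast h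
        nlinarith
    nlinarith
  · push Not at hf
    obtain ⟨D, hD, hDg, hDne⟩ := hf
    -- the union of the core with `D`
    obtain ⟨C, hC, h1, h2⟩ := core (H := H) (fun _ => 0) X
    have hCg : Good H C := fun v hv => by simpa using h1 v hv
    simp only [sum_const_zero, mul_zero, add_zero] at h2
    have hCa := hX C hC hCg
    rcases C.eq_empty_or_nonempty with hCe | hCne
    · -- then `a ≥ 3`
      have h3 := good_card hDg hDne
      have h4 := hX D hD hDg
      rw [hCe] at h2
      simp [E] at h2
      have h5 : (E H X : ℤ) ≤ 2 * X.card := by unfold E; exact_mod_cast h2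
      have h6 : (3 : ℤ) ≤ a := by exact_mod_cast h3.trans h4
      nlinarith
    · have h3 := good_card hCg hCne
      have h4 := E_le (H := H) C
      have h5 : (E H X : ℤ) + 2 * C.card ≤ E H C + 2 * X.card := by exact_mod_cast h2
      have h6 : (3 : ℤ) ≤ C.card := by exact_mod_cast h3
      have h7 : (C.card : ℤ) ≤ a := by exact_mod_cast hCa
      nlinarith

/-- exchange lemma -/
lemma swap {X B : Finset V} {q b : ℕ} (hB : B ⊆ X) (hBq : B.card ≤ q) (hX : X.card = q + b) :
    ∃ Y ⊆ X, B ⊆ Y ∧ Y.card = q ∧ ((∀ z ∈ Y, z ∉ B → 2 ≤ deg H z Y) ∨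
      ∃ z ∈ Y, (E H X : ℤ) ≤ (b + 1) * (b + 2) + E H (Y.erase z)) := by
  obtain ⟨Y0, hBY0, hY0X, hY0q⟩ := exists_subsuperset_card_eq hB hBq (by omega : q ≤ X.card)
  obtain ⟨Y, hYmem, hYmax⟩ := exists_max_image ((X.powersetCard q).filter (fun Y => B ⊆ Y)) (E H)
    ⟨Y0, by rw [mem_filter, mem_powersetCard]; exact ⟨⟨hY0X, hY0q⟩, hBY0⟩⟩
  rw [mem_filter, mem_powersetCard] at hYmem
  obtain ⟨⟨hYX, hYq⟩, hBY⟩ := hYmem
  refine ⟨Y, hYX, hBY, hYq, ?_⟩
  by_cases hgood : ∀ z ∈ Y, z ∉ B → 2 ≤ deg H z Y
  · exact Or.inl hgood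
  right
  push Not at hgood
  obtain ⟨z, hzY, hzB, hz⟩ := hgood
  refine ⟨z, hzY, ?_⟩
  set Y' := Y.erase z with hY'
  have hsub : Y' ⊆ X := (erase_subset _ _).trans hYX
  have hY'card : Y'.card + 1 = q := by rw [hY', card_erase_add_one hzY, hYq]
  have hswap : ∀ u ∈ X \ Y', deg H u Y' ≤ 1 := by
    intro u hu
    rw [mem_sdiff] at hu
    by_cases huz : u = z
    · rw [huz, hY', deg_erase_self]; omega
    · have h1 : insert u Y' ∈ (X.powersetCard q).filter (fun Y => B ⊆ Y) := by
        rw [mem_filter, mem_powersetCard]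
        refine ⟨⟨insert_subset hu.1 hsub, ?_⟩, ?_⟩
        · rw [card_insert_of_notMem hu.2, hY'card]
        · intro x hx
          apply mem_insert_of_mem
          rw [hY', mem_erase]
          exact ⟨fun h => hzB (h ▸ hx), hBY hx⟩
      have h2 := hYmax _ h1
      rw [E_insert hu.2, E_erase hzY, ← hY'] at h2
      omega
  have hcard : (X \ Y').card = b + 1 := by
    rw [card_sdiff_of_subset hsub]; omega
  have hunion : X = Y' ∪ (X \ Y') := (union_sdiff_of_subset hsub).symm
  have hE : E H X = E H Y' + E H (X \ Y') + 2 * ∑ t ∈ X \ Y', deg H t Y' := by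
    conv_lhs => rw [hunion]
    exact E_union disjoint_sdiff
  have h3 : ∑ t ∈ X \ Y', deg H t Y' ≤ b + 1 := by
    calc ∑ t ∈ X \ Y', deg H t Y' ≤ ∑ t ∈ X \ Y', 1 := sum_le_sum hswap
      _ = b + 1 := by rw [sum_const, smul_eq_mul, mul_one, hcard]
  have h4 := E_le (H := H) (X \ Y')
  rw [hcard] at h4
  have h5 : (E H X : ℤ) = E H Y' + E H (X \ Y') + 2 * ((∑ t ∈ X \ Y', deg H t Y' : ℕ) : ℤ) := by
    rw [hE]; push_cast; ring
  have h6 : ((∑ t ∈ X \ Y', deg H t Y' : ℕ) : ℤ) ≤ b + 1 := by exact_mod_cast h3
  push_cast at h4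
  nlinarith

/-- greedy and cascade: no good subsets with sizes in `[a+1, p]` -/
lemma gc {X : Finset V} {a p b : ℕ} (hap : a + 1 ≤ p) (hX : X.card = p + b)
    (hno : ∀ C ⊆ X, Good H C → C.card ≤ a ∨ p < C.card) :
    (E H X : ℤ) ≤ (b + 1) * (b + 2) + a * (a - 1) + 2 * (p - 1 - a) := by
  obtain ⟨Y, hYX, -, hYp, h | ⟨z, hz, h⟩⟩ := swap (H := H) (X := X) (B := ∅) (q := p) (b := b)
    (empty_subset _) (by simp) hX
  · exfalso
    have hg : Good H Y := fun z hz => h z hz (by simp)
    rcases hno Y hYX hg with h1 | h1 <;> omega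
  · have hc : (Y.erase z).card + 1 = p := by rw [card_erase_add_one hz, hYp]
    have h2 := edges_core (H := H) (X := Y.erase z) (a := a) (by
      intro C hC hCg
      rcases hno C (hC.trans ((erase_subset _ _).trans hYX)) hCg with h1 | h1
      · exact h1
      · have := card_le_card hC
        omega) (by omega)
    have h3 : ((Y.erase z).card : ℤ) = p - 1 := by
      have : (((Y.erase z).card + 1 : ℕ) : ℤ) = p := by exact_mod_cast hc
      push_cast at this; linarith
    rw [h3] at h2
    linarith

/-- the forest case -/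
lemma forest_case {K M : Finset V} {k m : ℕ} (hK : K.card = k + 1) (hM : M.card = m)
    (hm2 : 2 ≤ m) (hmk : m + 1 ≤ k) (hKM : Disjoint K M) (hdK : ∀ u ∈ M, deg H u K ≤ 1)
    (hdeg : ∀ u ∈ M, 2 ≤ deg H u M + deg H u K)
    (hf : ∀ C ⊆ M, Good H C → C = ∅) (hE : (k : ℤ) * (k + 1) < E H K + E H M)
    (hno : ∀ S ⊆ K ∪ M, S.card = k + 2 → ¬ Good H S) : False := by
  have hMne : M.Nonempty := card_pos.1 (by omega)
  have hfor := forest hf hMne
  have hfor' : (E H M : ℤ) + 2 ≤ 2 * m := by rw [hM] at hfor; exact_mod_cast hfor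
  -- minimal nonempty set
  obtain ⟨N, hNmem, hNmin⟩ := exists_min_image
    (M.powerset.filter fun N => N.Nonempty ∧ ∀ u ∈ N, 2 ≤ deg H u N + deg H u K) card
    ⟨M, by rw [mem_filter, mem_powerset]; exact ⟨Subset.rfl, hMne, hdeg⟩⟩
  rw [mem_filter, mem_powerset] at hNmem
  obtain ⟨hNM, hNne, hNdeg⟩ := hNmem
  set μ := N.card with hμ
  have hμm : μ ≤ m := by rw [hμ, ← hM]; exact card_le_card hNM
  have hfN : ∀ C ⊆ N, Good H C → C = ∅ := fun C hC => hf C (hC.trans hNM)
  have hforN := forest hfN hNne
  -- number of attachments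
  set a := ∑ u ∈ N, deg H u K with ha
  have hsum : 2 * μ ≤ E H N + a := by
    calc 2 * μ = ∑ u ∈ N, 2 := by rw [sum_const, smul_eq_mul, mul_comm]
      _ ≤ ∑ u ∈ N, (deg H u N + deg H u K) := sum_le_sum hNdeg
      _ = E H N + a := by rw [sum_add_distrib]; rfl
  have hphi : E H N + 2 * a ≤ 2 * (μ + 1) := by
    have hng : ¬ Good H N := fun h => hNne.ne_empty (hfN N Subset.rfl h)
    unfold Good at hng
    push Not at hng
    obtain ⟨v, hv, hlt⟩ := hng
    obtain ⟨C, hC, h1, h2⟩ := core (H := H) (fun u => deg H u K) (N.erase v)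
    have hCe : C = ∅ := by
      by_contra hCne
      have h3 : C ∈ M.powerset.filter fun N => N.Nonempty ∧ ∀ u ∈ N, 2 ≤ deg H u N + deg H u K := by
        rw [mem_filter, mem_powerset]
        exact ⟨hC.trans ((erase_subset _ _).trans hNM), nonempty_iff_ne_empty.2 hCne, h1⟩
      have h4 := hNmin C h3
      have h5 := card_le_card hC
      have h6 : (N.erase v).card + 1 = N.card := card_erase_add_one hv
      omega
    rw [hCe] at h2
    have h6 : (N.erase v).card + 1 = N.card := card_erase_add_one hv
    have h7 : a = deg H v K + ∑ u ∈ N.erase v, deg H u K := by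
      rw [ha, ← add_sum_erase N (fun u => deg H u K) hv]
    have h8 := hdK v (hNM hv)
    have h9 := E_erase (H := H) hv
    simp [E] at h2
    unfold E at *
    omega
  have ha2 : a = 2 := by omega
  have hμ2 : 2 ≤ μ := by
    rw [← ha2, ha, hμ]
    calc ∑ u ∈ N, deg H u K ≤ ∑ u ∈ N, 1 := sum_le_sum fun u hu => hdK u (hNM hu)
      _ = N.card := by simp
  -- attachments as seen from `K`
  have hac : ∑ z ∈ K, deg H z N = 2 := by rw [← ha2, ha, sum_deg_comm]
  set A := K.filter (fun z => 1 ≤ deg H z N) with hA
  have hAK : A ⊆ K := filter_subset _ _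
  have hAsum : ∑ z ∈ A, deg H z N = 2 := by
    rw [← hac, hA]
    apply sum_filter_of_ne
    intro x _ hx
    omega
  have hAcard : A.card ≤ 2 := by
    calc A.card = ∑ z ∈ A, 1 := by simp
      _ ≤ ∑ z ∈ A, deg H z N := sum_le_sum fun z hz => (mem_filter.1 hz).2
      _ = 2 := hAsum
  have hAne : A.Nonempty := by
    by_contra h
    rw [not_nonempty_iff_eq_empty] at h
    rw [h] at hAsum
    simp at hAsum
  -- neighbours in `K` of vertices of `N` lie in `A`
  have hnb : ∀ u ∈ N, ∀ Y ⊆ K, A ⊆ Y → deg H u Y = deg H u K := by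
    intro u hu Y hY hAY
    have h1 : K = Y ∪ (K \ Y) := (union_sdiff_of_subset hY).symm
    have h2 : deg H u K = deg H u Y + deg H u (K \ Y) := by
      conv_lhs => rw [h1]
      exact deg_union disjoint_sdiff
    have h3 : deg H u (K \ Y) = 0 := by
      rw [deg_eq_sum]
      apply sum_eq_zero
      intro z hz
      rw [mem_sdiff] at hz
      have h4 : z ∉ A := fun h => hz.2 (hAY h)
      have h5 : deg H z N = 0 := by
        by_contra h6
        exact h4 (mem_filter.2 ⟨hz.1, by omega⟩)
      have h6 : deg H z {u} ≤ deg H z N := deg_mono (singleton_subset_iff.2 hu)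
      rw [deg_comm_singleton]
      omega
    omega
  -- the forced set
  have hT : (k : ℤ) * (k + 1) - 2 * (m - 2) ≤ E H K := by
    have : (E H K : ℤ) + E H M ≥ k * (k + 1) + 1 := hE
    have hpar : (E H K : ℤ) ≥ k * (k + 1) - 2 * (m - 2) - 1 := by linarith
    -- parity
    have heven : ∀ X : Finset V, Even (E H X) := by
      intro X
      induction X using Finset.induction_on with
      | empty => simp [E]
      | insert v s hv ih => rw [E_insert hv]; exact ih.add (even_two_mul _)
    obtain ⟨e, he⟩ := heven K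
    have hk2 : Even ((k : ℤ) * (k + 1)) := Int.even_mul_succ_self k
    obtain ⟨e', he'⟩ := hk2
    rw [he'] at hpar ⊢
    have he2 : (E H K : ℤ) = e + e := by exact_mod_cast he
    rw [he2] at hpar ⊢
    omega
  have hforced : ∃ B ⊆ K, A ⊆ B ∧ B.card ≤ 3 ∧ ∀ z ∈ B, 2 ≤ deg H z B + deg H z N := by
    rcases Nat.lt_or_ge A.card 2 with hA1 | hA2
    · -- a single attachment vertex
      have hA1' : A.card = 1 := by
        have := card_pos.2 hAne
        omega
      obtain ⟨z, hz⟩ := card_eq_one.1 hA1'
      refine ⟨A, hAK, Subset.rfl, by omega, fun x hx => ?_⟩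
      rw [hz, mem_singleton] at hx
      rw [hz, sum_singleton] at hAsum
      rw [hx]
      omega
    · have hA2' : A.card = 2 := by omega
      have hex : ∃ x ∈ K \ A, 2 ≤ deg H x A := by
        by_contra hcon
        push Not at hcon
        have h1 : K = A ∪ (K \ A) := (union_sdiff_of_subset hAK).symm
        have h2 : E H K = E H A + E H (K \ A) + 2 * ∑ t ∈ K \ A, deg H t A := by
          conv_lhs => rw [h1]
          exact E_union disjoint_sdiff
        have hc : (K \ A).card + 2 = k + 1 := by
          rw [card_sdiff_of_subset hAK]; omega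
        have h3 : ∑ t ∈ K \ A, deg H t A ≤ (K \ A).card := by
          calc ∑ t ∈ K \ A, deg H t A ≤ ∑ t ∈ K \ A, 1 :=
                sum_le_sum fun t ht => by have := hcon t ht; omega
            _ = (K \ A).card := by simp
        have h4 := E_le (H := H) A
        have h5 := E_le (H := H) (K \ A)
        have hc' : ((K \ A).card : ℤ) = k - 1 := by
          have : (((K \ A).card + 2 : ℕ) : ℤ) = k + 1 := by exact_mod_cast hc
          push_cast at this; linarith
        rw [hA2'] at h4
        rw [hc'] at h5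
        have h6 : ((∑ t ∈ K \ A, deg H t A : ℕ) : ℤ) ≤ k - 1 := by
          rw [← hc']; exact_mod_cast h3
        have h7 : (E H K : ℤ) = E H A + E H (K \ A) +
            2 * ((∑ t ∈ K \ A, deg H t A : ℕ) : ℤ) := by
          rw [h2]; push_cast; ring
        have h8 : (m : ℤ) + 1 ≤ k := by exact_mod_cast hmk
        push_cast at h4
        nlinarith
      obtain ⟨x, hx, hx2⟩ := hex
      rw [mem_sdiff] at hx
      have hle1 : ∀ y z : V, deg H y {z} ≤ 1 := fun y z => by
        simpa using deg_le_card (H := H) y {z}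
      have hadj : ∀ z ∈ A, deg H z {x} = 1 := by
        intro z hz
        have h1 : A = insert z (A.erase z) := (insert_erase hz).symm
        have h2 : deg H x A = deg H x (A.erase z) + deg H x {z} := by
          conv_lhs => rw [h1]
          exact deg_insert (notMem_erase z A)
        have h3 := deg_le_card (H := H) x (A.erase z)
        rw [card_erase_of_mem hz, hA2'] at h3
        have h4 := hle1 x z
        rw [deg_comm_singleton]
        omega
      refine ⟨insert x A, insert_subset hx.1 hAK, subset_insert _ _, ?_, fun z hz => ?_⟩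
      · rw [card_insert_of_notMem hx.2]; omega
      · rcases mem_insert.1 hz with rfl | hz
        · have : deg H z A ≤ deg H z (insert z A) := deg_mono (subset_insert _ _)
          omega
        · have h1 := hadj z hz
          have h2 : deg H z {x} ≤ deg H z (insert x A) :=
            deg_mono (singleton_subset_iff.2 (mem_insert_self _ _))
          have h3 := (mem_filter.1 hz).2
          omega
  obtain ⟨B, hBK, hAB, hB3, hBgood⟩ := hforced
  obtain ⟨Y, hYK, hBY, hYq, hY⟩ := swap (H := H) (X := K) (B := B) (q := k + 2 - μ) (b := μ - 1)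
    hBK (by omega) (by omega)
  rcases hY with hY | ⟨z, hz, hY⟩
  · apply hno (Y ∪ N) (union_subset_union hYK hNM)
    · rw [card_union_of_disjoint (hKM.mono hYK hNM)]
      omega
    · intro x hx
      rw [deg_union (hKM.mono hYK hNM)]
      rcases mem_union.1 hx with h | h
      · by_cases hxB : x ∈ B
        · have h1 := hBgood x hxB
          have h2 : deg H x B ≤ deg H x Y := deg_mono hBY
          omega
        · have := hY x h hxB
          omega
      · have h1 := hNdeg x h
        have h2 := hnb x h Y hYK (hAB.trans hBY)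
        omega
  · have h1 := E_le (H := H) (Y.erase z)
    have h2 : (Y.erase z).card + 1 = k + 2 - μ := by rw [card_erase_add_one hz, hYq]
    have h3 : ((Y.erase z).card : ℤ) = k + 1 - μ := by
      have : (Y.erase z).card + μ = k + 1 := by omega
      have h4 : (((Y.erase z).card + μ : ℕ) : ℤ) = k + 1 := by exact_mod_cast this
      push_cast at h4
      linarith
    rw [h3] at h1
    have h5 : ((μ - 1 : ℕ) : ℤ) = μ - 1 := by
      have : 1 ≤ μ := by omega
      push_cast [this]; ring
    rw [h5] at hY
    have h6 : (2 : ℤ) ≤ μ := by exact_mod_cast hμ2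
    have h7 : (μ : ℤ) ≤ m := by exact_mod_cast hμm
    have h8 : (m : ℤ) + 1 ≤ k := by exact_mod_cast hmk
    nlinarith [mul_nonneg (sub_nonneg.2 h6) (sub_nonneg.2 h7)]
lemma ar1 {m a k : ℤ} (hm : 0 ≤ m) (hma : m ≤ a) (ha : 1 ≤ a) (hk : 2 * a + 2 ≤ k) :
    m * (m - 1) < 2 * (a * (k - a)) + 1 := by
  have h1 : m * (m - 1) ≤ a * a := by nlinarith
  have h2 : a * (a + 2) ≤ a * (k - a) := mul_le_mul_of_nonneg_left (by linarith) (by linarith)
  nlinarith
lemma ar2 {m a k : ℤ} (hm : m ≤ k - a - 2) (ha : 1 ≤ a) (hk : 2 * a + 2 ≤ k) :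
    a * (a - 1) + 2 * (m - a) < 2 * (a * (k - a)) + 1 := by
  have h2 : (a - 1) * (2 * a + 2) ≤ (a - 1) * k := mul_le_mul_of_nonneg_left hk (by linarith)
  nlinarith
lemma ar3 {b a k : ℤ} (hb : 0 ≤ b) (hba : b ≤ a) (ha : 1 ≤ a) (hk : 2 * a + 2 ≤ k) :
    (b + 1) * (b + 2) + a * (a - 1) + 2 * (k - a - 1 - 1 - a) < 2 * (a * (k - a)) + 1 := by
  have h1 : (b + 1) * (b + 2) ≤ (a + 1) * (a + 2) := by nlinarith
  have h2 : 0 ≤ (a - 1) * (k - 2 * a - 1) := mul_nonneg (by linarith) (by linarith)
  nlinarith


/-- the case where `M` contains a cycle -/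
lemma cycle_case {K M : Finset V} {k m : ℕ} (hK : K.card = k + 1) (hM : M.card = m)
    (hmk : m + 1 ≤ k) (hKM : Disjoint K M) (hE : (k : ℤ) * (k + 1) < E H K + E H M)
    (hEM : (E H M : ℤ) ≤ E H K + 2)
    (hno : ∀ S ⊆ K ∪ M, S.card = k + 2 → ¬ Good H S)
    (hcyc : ∃ Z ⊆ M, Good H Z ∧ Z.Nonempty) : False := by
  have hKle := E_le (H := H) K
  rw [hK] at hKle
  push_cast at hKle
  obtain ⟨T, hT⟩ : ∃ T : ℕ, (E H K : ℤ) + T = k * (k + 1) :=
    ⟨((k : ℤ) * (k + 1) - E H K).toNat, by
      rw [Int.toNat_of_nonneg (by nlinarith)]; ring⟩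
  have hMT : (T : ℤ) + 1 ≤ E H M := by linarith
  have hk0 : 1 ≤ k := by omega
  -- combining good sets
  have hcomb : ∀ Z ⊆ M, ∀ C ⊆ K, Good H Z → Good H C → Z.card + C.card ≠ k + 2 := by
    intro Z hZ C hC hZg hCg h
    apply hno (C ∪ Z) (union_subset_union hC hZ)
    · rw [card_union_of_disjoint (hKM.mono hC hZ)]; omega
    · exact good_union hCg hZg
  -- good subsets of `M` force many missing edges in `K`
  have P1 : ∀ Z ⊆ M, Good H Z → Z.Nonempty → (2 : ℤ) * (Z.card * (k - Z.card)) ≤ T := by
    intro Z hZ hZg hZne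
    have hj1 : 1 ≤ Z.card := card_pos.2 hZne
    have hj2 : Z.card ≤ m := by rw [← hM]; exact card_le_card hZ
    obtain ⟨q, hq⟩ : ∃ q, Z.card + q = k + 1 := ⟨k + 1 - Z.card, by omega⟩
    have h1 := gc (H := H) (X := K) (a := q) (p := q + 1) (b := Z.card - 1) le_rfl (by omega) (by
      intro C hC hCg
      have := hcomb Z hZ C hC hZg hCg
      omega)
    have h2 : ((Z.card - 1 : ℕ) : ℤ) = Z.card - 1 := by push_cast [hj1]; ring
    have h3 : (q : ℤ) = k + 1 - Z.card := by
      have : ((Z.card + q : ℕ) : ℤ) = k + 1 := by exact_mod_cast hq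
      push_cast at this; linarith
    rw [h2] at h1
    push_cast at h1
    rw [h3] at h1
    linarith
  set r := k / 2 with hr
  rcases Nat.lt_or_ge T (2 * (r * (k - r))) with hR1 | hR2
  · -- few missing edges
    set P : ℕ → Prop := fun j => 2 * (j * (k - j)) ≤ T with hP
    set a := Nat.findGreatest P r with ha
    have hP0 : P 0 := by simp [hP]
    have hPa : P a := Nat.findGreatest_spec (Nat.zero_le r) hP0
    have har : a ≤ r := Nat.findGreatest_le r
    have har' : a ≠ r := by
      intro h
      rw [h] at hPa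
      simp only [hP] at hPa
      omega
    have har2 : a + 1 ≤ r := by omega
    have hr2 : 2 * r ≤ k := by omega
    have hgt : ∀ j, a < j → j ≤ r → ¬ P j := fun j h1 h2 => Nat.findGreatest_is_greatest h1 h2
    have hPcast : ∀ j, j ≤ k → (P j ↔ (2 : ℤ) * (j * (k - j)) ≤ T) := by
      intro j hj
      simp only [hP]
      rw [← Nat.cast_le (α := ℤ)]
      push_cast [Nat.cast_sub hj]
      rfl
    have hgap : ∀ Z ⊆ M, Good H Z → Z.card ≤ a ∨ k - a - 1 < Z.card := by
      intro Z hZ hZg
      by_contra hcon
      push Not at hcon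
      have hZne : Z.Nonempty := card_pos.1 (by omega)
      have h1 := P1 Z hZ hZg hZne
      rcases Nat.lt_or_ge r Z.card with h2 | h2
      · apply hgt (k - Z.card) (by omega) (by omega)
        rw [hPcast _ (by omega)]
        have h3 : ((k - Z.card : ℕ) : ℤ) = k - Z.card := by
          rw [Nat.cast_sub (by omega)]
        rw [h3]
        linarith
      · apply hgt Z.card (by omega) h2
        rw [hPcast _ (by omega)]
        exact h1
    have hPaz := (hPcast a (by omega)).1 hPa
    rcases Nat.eq_zero_or_pos a with ha0 | ha0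
    · obtain ⟨Z, hZ, hZg, hZne⟩ := hcyc
      have h1 := card_pos.2 hZne
      have h2 := card_le_card hZ
      rcases hgap Z hZ hZg with h3 | h3 <;> omega
    · have hka : (2 : ℤ) * a + 2 ≤ k := by exact_mod_cast (by omega : 2 * a + 2 ≤ k)
      have ha1 : (1 : ℤ) ≤ a := by exact_mod_cast ha0
      have hmk' : (m : ℤ) + 1 ≤ k := by exact_mod_cast hmk
      rcases Nat.lt_or_ge m (k - a - 1) with hm | hm
      · have hm' : (m : ℤ) ≤ k - a - 2 := by
          have : ((m + a + 2 : ℕ) : ℤ) ≤ k := by exact_mod_cast (by omega : m + a + 2 ≤ k)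
          push_cast at this; linarith
        rcases Nat.lt_or_ge m a with hma | hma
        · have h1 := E_le (H := H) M
          rw [hM] at h1
          have hma' : (m : ℤ) ≤ a := by exact_mod_cast hma.le
          have h2 := ar1 (by positivity : (0 : ℤ) ≤ m) hma' ha1 hka
          linarith
        · have h1 := edges_core (H := H) (X := M) (a := a) (by
            intro C hC hCg
            have h2 := card_le_card hC
            rcases hgap C hC hCg with h3 | h3
            · exact h3
            · omega) (by omega)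
          rw [hM] at h1
          have h2 := ar2 hm' ha1 hka
          linarith
      · obtain ⟨b, hb⟩ : ∃ b, m = (k - a - 1) + b := ⟨m - (k - a - 1), by omega⟩
        have h1 := gc (H := H) (X := M) (a := a) (p := k - a - 1) (b := b) (by omega)
          (by omega) hgap
        have h2 : ((k - a - 1 : ℕ) : ℤ) = k - a - 1 := by
          have : ((k - a - 1 + (a + 1) : ℕ) : ℤ) = k := by
            exact_mod_cast (by omega : k - a - 1 + (a + 1) = k)
          push_cast at this; linarith
        rw [h2] at h1
        have h3 : (b : ℤ) ≤ a := by exact_mod_cast (by omega : b ≤ a)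
        have h4 : (0 : ℤ) ≤ b := by positivity
        have h5 := ar3 h4 h3 ha1 hka
        linarith
  · -- many missing edges
    have hR2' : (2 : ℤ) * (r * (k - r)) ≤ T := by
      have h1 : ((2 * (r * (k - r)) : ℕ) : ℤ) ≤ T := by exact_mod_cast hR2
      push_cast [Nat.cast_sub (by omega : r ≤ k)] at h1
      exact h1
    have P2 : ∀ p : ℕ, 1 ≤ p → p ≤ k →
        ((k : ℤ) - p) * (k - p + 1) + (p - 1) * (p - 2) ≤ 2 * (r * (k - r)) →
        ∀ C ⊆ K, Good H C → C.card ≠ k + 2 - p := by
      intro p hp1 hpk hpb C hC hCg hCc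
      have hex : ∃ Z ⊆ M, Good H Z ∧ Z.card = p := by
        by_contra hcon
        push Not at hcon
        have hmk' : (m : ℤ) + 1 ≤ k := by exact_mod_cast hmk
        have hpk' : (p : ℤ) ≤ k := by exact_mod_cast hpk
        have hp1' : (1 : ℤ) ≤ p := by exact_mod_cast hp1
        rcases Nat.lt_or_ge m p with hmp | hmp
        · have h1 := E_le (H := H) M
          rw [hM] at h1
          have hmp' : (m : ℤ) ≤ p - 1 := by
            have : ((m + 1 : ℕ) : ℤ) ≤ p := by exact_mod_cast hmp
            push_cast at this; linarith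
          have hm0 : (0 : ℤ) ≤ m := by positivity
          have h2 : (m : ℤ) * (m - 1) ≤ (p - 1) * (p - 2) := by
            rcases Nat.eq_zero_or_pos m with h0 | h0
            · rw [h0]
              push_cast
              rcases Nat.lt_or_ge p 2 with h5 | h5
              · have : p = 1 := by omega
                rw [this]; norm_num
              · have : (2 : ℤ) ≤ p := by exact_mod_cast h5
                nlinarith
            · have : (1 : ℤ) ≤ m := by exact_mod_cast h0
              nlinarith
          have h3 : (0 : ℤ) ≤ (k - p) * (k - p + 1) :=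
            mul_nonneg (by linarith) (by linarith)
          linarith
        · obtain ⟨p', rfl⟩ : ∃ p', p = p' + 1 := ⟨p - 1, by omega⟩
          have h1 := gc (H := H) (X := M) (a := p') (p := p' + 1) (b := m - (p' + 1)) le_rfl
            (by omega) (by
              intro C hC hCg
              have := hcon C hC hCg
              omega)
          have h2 : ((m - (p' + 1) : ℕ) : ℤ) = m - (p' + 1) := by
            rw [Nat.cast_sub hmp]; push_cast; ring
          rw [h2] at h1
          push_cast at h1 hpb
          have h3 : (m : ℤ) - (p' + 1) + 1 ≤ k - (p' + 1) := by linarith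
          have h4 : (0 : ℤ) ≤ (m : ℤ) - (p' + 1) := by
            have : ((p' + 1 : ℕ) : ℤ) ≤ m := by exact_mod_cast hmp
            push_cast at this; linarith
          nlinarith [mul_nonneg h4 (sub_nonneg.2 h3)]
      obtain ⟨Z, hZ, hZg, hZp⟩ := hex
      exact hcomb Z hZ C hC hZg hCg (by omega)
    have hMle := E_le (H := H) M
    rw [hM] at hMle
    have hmk' : (m : ℤ) + 1 ≤ k := by exact_mod_cast hmk
    have hk1 : (1 : ℤ) ≤ k := by exact_mod_cast hk0
    have hm0 : (0 : ℤ) ≤ m := by positivity
    have hMle2 : (E H M : ℤ) ≤ (k - 1) * (k - 2) := by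
      rcases Nat.eq_zero_or_pos m with h0 | h0
      · rw [h0] at hMle
        push_cast at hMle
        rcases Nat.lt_or_ge k 2 with h5 | h5
        · have : k = 1 := by omega
          rw [this]; norm_num; linarith
        · have : (2 : ℤ) ≤ k := by exact_mod_cast h5
          nlinarith
      · have : (1 : ℤ) ≤ m := by exact_mod_cast h0
        nlinarith
    rcases Nat.even_or_odd' k with ⟨s, hs | hs⟩
    · have hrs : r = s := by omega
      rw [hrs] at hR2' P2
      have hsz : (k : ℤ) = 2 * s := by exact_mod_cast hs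
      have hs3 : 3 ≤ s := by
        by_contra h
        have h' : s ≤ 2 := by omega
        rw [hsz] at hR2' hMle2
        interval_cases s <;> norm_num at hR2' hMle2 <;> linarith
      have hs3' : (3 : ℤ) ≤ s := by exact_mod_cast hs3
      have h1 := gc (H := H) (X := K) (a := s - 1) (p := s + 2) (b := s - 1) (by omega)
        (by omega) (by
          intro C hC hCg
          have c0 := P2 s (by omega) (by omega) (by rw [hsz]; linarith) C hC hCg
          have c1 := P2 (s + 1) (by omega) (by omega) (by rw [hsz]; push_cast; linarith) C hC hCg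
          have c2 := P2 (s + 2) (by omega) (by omega) (by rw [hsz]; push_cast; linarith) C hC hCg
          omega)
      have h2 : ((s - 1 : ℕ) : ℤ) = s - 1 := by rw [Nat.cast_sub (by omega)]; simp
      rw [h2] at h1
      push_cast at h1
      rw [hsz] at hT
      linarith
    · have hrs : r = s := by omega
      rw [hrs] at hR2' P2
      have hsz : (k : ℤ) = 2 * s + 1 := by exact_mod_cast hs
      have hs3 : 3 ≤ s := by
        by_contra h
        have h' : s ≤ 2 := by omega
        rw [hsz] at hR2' hMle2
        interval_cases s <;> norm_num at hR2' hMle2 <;> linarith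
      have hs3' : (3 : ℤ) ≤ s := by exact_mod_cast hs3
      have h1 := gc (H := H) (X := K) (a := s - 1) (p := s + 3) (b := s - 1) (by omega)
        (by omega) (by
          intro C hC hCg
          have c0 := P2 s (by omega) (by omega) (by rw [hsz]; linarith) C hC hCg
          have c1 := P2 (s + 1) (by omega) (by omega) (by rw [hsz]; push_cast; linarith) C hC hCg
          have c2 := P2 (s + 2) (by omega) (by omega) (by rw [hsz]; push_cast; linarith) C hC hCg
          have c3 := P2 (s + 3) (by omega) (by omega) (by rw [hsz]; push_cast; linarith) C hC hCg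
          omega)
      have h2 : ((s - 1 : ℕ) : ℤ) = s - 1 := by rw [Nat.cast_sub (by omega)]; simp
      rw [h2] at h1
      push_cast at h1
      rw [hsz] at hT
      linarith

/-- the main bound -/
theorem main {k m : ℕ} (hmk : m + 1 ≤ k) {W : Finset V} (hW : W.card = k + 1 + m)
    (hno : ∀ S ⊆ W, S.card = k + 2 → ¬ Good H S) : (E H W : ℤ) ≤ k * (k + 1) + 2 * m := by
  induction m generalizing W with
  | zero =>
    have h1 := E_le (H := H) W
    rw [hW] at h1
    push_cast at h1 ⊢
    linarith
  | succ m ih =>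
    by_contra hcon
    push Not at hcon
    -- `W` is good
    have hWg : Good H W := by
      intro v hv
      by_contra hlt
      push Not at hlt
      have h1 := E_erase (H := H) hv
      have h2 : (W.erase v).card + 1 = W.card := card_erase_add_one hv
      have h3 := ih (by omega) (W := W.erase v) (by omega)
        (fun S hS => hno S (hS.trans (erase_subset _ _)))
      have h4 : (E H W : ℤ) = E H (W.erase v) + 2 * deg H v W := by exact_mod_cast h1
      have h5 : (deg H v W : ℤ) ≤ 1 := by exact_mod_cast Nat.lt_succ_iff.1 hlt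
      push_cast at hcon
      linarith
    have hm1 : 1 ≤ m := by
      by_contra h
      exact hno W Subset.rfl (by omega) hWg
    obtain ⟨S, hSmem, hSmax⟩ := exists_max_image (W.powersetCard (k + 2)) (E H)
      (powersetCard_nonempty.2 (by omega))
    rw [mem_powersetCard] at hSmem
    obtain ⟨hSW, hSc⟩ := hSmem
    have hSng := hno S hSW hSc
    unfold Good at hSng
    push Not at hSng
    obtain ⟨v, hvS, hv⟩ := hSng
    set K := S.erase v with hKdef
    have hKc : K.card = k + 1 := by
      have := card_erase_add_one hvS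
      rw [← hKdef] at this
      omega
    have hKW : K ⊆ W := (erase_subset _ _).trans hSW
    set M := W \ K with hMdef
    have hMc : M.card = m + 1 := by rw [hMdef, card_sdiff_of_subset hKW]; omega
    have hdisj : Disjoint K M := disjoint_sdiff
    have hunion : W = K ∪ M := (union_sdiff_of_subset hKW).symm
    have hES : E H S = E H K + 2 * deg H v S := by rw [hKdef]; exact E_erase hvS
    have hdK : ∀ u ∈ M, deg H u K ≤ 1 := by
      intro u hu
      rw [hMdef, mem_sdiff] at hu
      by_cases huv : u = v
      · rw [huv, hKdef, deg_erase_self]; omega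
      · have h1 : insert u K ∈ W.powersetCard (k + 2) := by
          rw [mem_powersetCard]
          exact ⟨insert_subset hu.1 hKW, by rw [card_insert_of_notMem hu.2, hKc]⟩
        have h2 := hSmax _ h1
        rw [E_insert hu.2, hES] at h2
        omega
    have hEW : E H W = E H K + E H M + 2 * ∑ t ∈ M, deg H t K := by
      conv_lhs => rw [hunion]
      exact E_union hdisj
    have hsum : ∑ t ∈ M, deg H t K ≤ m + 1 := by
      calc ∑ t ∈ M, deg H t K ≤ ∑ t ∈ M, 1 := sum_le_sum hdK
        _ = m + 1 := by rw [sum_const, smul_eq_mul, mul_one, hMc]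
    have hE : (k : ℤ) * (k + 1) < E H K + E H M := by
      have h1 : (E H W : ℤ) = E H K + E H M + 2 * ((∑ t ∈ M, deg H t K : ℕ) : ℤ) := by
        rw [hEW]; push_cast; ring
      have h2 : ((∑ t ∈ M, deg H t K : ℕ) : ℤ) ≤ m + 1 := by exact_mod_cast hsum
      push_cast at hcon
      linarith
    have hEM : (E H M : ℤ) ≤ E H K + 2 := by
      obtain ⟨U, hMU, hUW, hUc⟩ := exists_subsuperset_card_eq (s := M) (t := W) (n := k + 2)
        sdiff_subset (by omega) (by omega)
      have h1 := hSmax U (by rw [mem_powersetCard]; exact ⟨hUW, hUc⟩)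
      have h2 := E_mono (H := H) hMU
      have h3 : E H M ≤ E H K + 2 := by omega
      exact_mod_cast h3
    rw [hunion] at hno
    by_cases hcyc : ∃ Z ⊆ M, Good H Z ∧ Z.Nonempty
    · exact cycle_case hKc hMc hmk hdisj hE hEM hno hcyc
    · push Not at hcyc
      refine forest_case hKc hMc (by omega) hmk hdisj hdK ?_ ?_ hE hno
      · intro u hu
        have h1 := hWg u (by rw [hunion]; exact mem_union_right _ hu)
        rw [hunion, deg_union hdisj] at h1
        omega
      · intro C hC hCg
        have := hcyc C hC hCg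
        simpa using this

/-! ### complements and edge counts -/

lemma deg_compl {v : V} {S : Finset V} (hv : v ∈ S) : deg H v S + deg Hᶜ v S + 1 = S.card := by
  classical
  have h1 : (S.filter fun u => H.Adj v u) ∪ (S.filter fun u => Hᶜ.Adj v u) = S.erase v := by
    ext u
    simp only [mem_union, mem_filter, mem_erase, SimpleGraph.compl_adj]
    constructor
    · rintro (⟨h1, h2⟩ | ⟨h1, h2, -⟩)
      · exact ⟨h2.ne', h1⟩
      · exact ⟨h2.symm, h1⟩
    · rintro ⟨h1, h2⟩
      by_cases h : H.Adj v u
      · exact Or.inl ⟨h2, h⟩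
      · exact Or.inr ⟨h2, h1.symm, h⟩
  have h2 : Disjoint (S.filter fun u => H.Adj v u) (S.filter fun u => Hᶜ.Adj v u) := by
    rw [disjoint_left]
    intro u hu hu'
    rw [mem_filter] at hu hu'
    exact ((SimpleGraph.compl_adj _ _ _).1 hu'.2).2 hu.2
  have h3 : deg H v S + deg Hᶜ v S = (S.erase v).card := by
    have e1 : (S.filter fun u => H.Adj v u).card = deg H v S := by unfold deg; congr
    have e2 : (S.filter fun u => Hᶜ.Adj v u).card = deg Hᶜ v S := by unfold deg; congr
    rw [← h1, card_union_of_disjoint h2, e1, e2]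
  rw [h3, card_erase_add_one hv]

lemma E_compl (S : Finset V) : E H S + E Hᶜ S = S.card * (S.card - 1) := by
  unfold E
  rw [← sum_add_distrib]
  have h1 : ∀ v ∈ S, deg H v S + deg Hᶜ v S = S.card - 1 := by
    intro v hv
    have := deg_compl (H := H) hv
    omega
  rw [sum_congr rfl h1, sum_const, smul_eq_mul]

lemma E_univ {n : ℕ} (G : SimpleGraph (Fin n)) : E G univ = 2 * G.edgeSet.ncard := by
  classical
  have h1 := G.sum_degrees_eq_twice_card_edges
  rw [Set.ncard_eq_toFinset_card']
  unfold E
  have h2 : ∀ v, deg G v univ = G.degree v := by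
    intro v
    unfold deg
    rw [← SimpleGraph.card_neighborFinset_eq_degree]
    congr 1
    ext u
    simp
  rw [sum_congr rfl (fun v _ => h2 v), h1]
  rfl

lemma hasP_iff {n k : ℕ} (G : SimpleGraph (Fin n)) :
    HasP k G ↔ ∀ S : Finset (Fin n), S.card = k + 2 → ¬ Good Gᶜ S := by
  constructor
  · intro h S hS hg
    obtain ⟨v, hv, hk⟩ := h S hS
    have h1 := hg v hv
    have h2 := deg_compl (H := G) hv
    omega
  · intro h S hS
    have hg := h S hS
    unfold Good at hg
    push Not at hg
    obtain ⟨v, hv, hlt⟩ := hg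
    refine ⟨v, hv, ?_⟩
    have h2 := deg_compl (H := G) hv
    omega

lemma two_choose (n : ℕ) : 2 * n.choose 2 = n * (n - 1) := by
  rw [Nat.choose_two_right, Nat.mul_div_cancel' (Nat.even_mul_pred_self n).two_dvd]

lemma lower {k m : ℕ} (hmk : m + 1 ≤ k) (G : SimpleGraph (Fin (k + 1 + m))) (hG : HasP k G) :
    (k + 1 + m).choose 2 ≤ G.edgeSet.ncard + (k + 1).choose 2 + m := by
  rw [hasP_iff] at hG
  have h1 := main (H := Gᶜ) hmk (W := univ) (by simp) (fun S _ => hG S)
  have h2 := E_compl (H := G) univ
  have h3 := E_univ G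
  have h4 := two_choose (k + 1 + m)
  have h5 := two_choose (k + 1)
  rw [card_univ, Fintype.card_fin, ← h4] at h2
  have h6 : E Gᶜ univ ≤ k * (k + 1) + 2 * m := by exact_mod_cast h1
  have h7 : (k + 1) * (k + 1 - 1) = k * (k + 1) := by rw [Nat.add_sub_cancel]; ring
  rw [h7] at h5
  omega

/-- an admissible graph `H` on `n` vertices whose complement has property `P_k` bounds `f` -/
lemma f_le {n k e : ℕ} (K : SimpleGraph (Fin n)) (hK : ∀ S : Finset (Fin n), S.card = k + 2 →
    ¬ Good K S) (hE : 2 * e ≤ E K univ) : f n k + e ≤ n.choose 2 := by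
  have h1 : HasP k Kᶜ := by
    rw [hasP_iff, compl_compl]
    exact hK
  have h2 : f n k ≤ Kᶜ.edgeSet.ncard := Nat.sInf_le ⟨Kᶜ, h1, rfl⟩
  have h3 := E_compl (H := K) univ
  have h4 := E_univ Kᶜ
  have h5 := two_choose n
  rw [card_univ, Fintype.card_fin, ← h5] at h3
  omega

/-! ### the extremal graph -/

/-- complete graph on `0, …, k` with pendant vertices attached to `0` -/
def pend (n k : ℕ) : SimpleGraph (Fin n) where
  Adj u v := u ≠ v ∧ ((u.val ≤ k ∧ v.val ≤ k) ∨ u.val = 0 ∨ v.val = 0)
  symm := ⟨by
    rintro u v ⟨h1, h2⟩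
    refine ⟨h1.symm, ?_⟩
    tauto⟩
  loopless := ⟨fun u h => h.1 rfl⟩

lemma low_card (n k : ℕ) (hkn : k + 1 ≤ n) :
    (univ.filter fun v : Fin n => v.val ≤ k).card = k + 1 := by
  have h1 : (univ.filter fun v : Fin n => v.val ≤ k) =
      (Finset.range (k + 1)).attachFin (fun i hi => by
        have := mem_range.1 hi
        omega) := by
    ext v
    simp [mem_attachFin]
  rw [h1, card_attachFin, card_range]

lemma exists_high {n k : ℕ} (hkn : k + 1 ≤ n) {S : Finset (Fin n)} (hS : S.card = k + 2) :
    ∃ v ∈ S, k < v.val := by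
  by_contra hcon
  push Not at hcon
  have h1 : S ⊆ univ.filter fun v : Fin n => v.val ≤ k := by
    intro v hv
    rw [mem_filter]
    exact ⟨mem_univ _, hcon v hv⟩
  have h2 := card_le_card h1
  rw [low_card n k hkn, hS] at h2
  omega

lemma pend_not_good {n k : ℕ} (hkn : k + 1 ≤ n) (S : Finset (Fin n)) (hS : S.card = k + 2) :
    ¬ Good (pend n k) S := by
  intro hg
  obtain ⟨v, hv, hvk⟩ := exists_high hkn hS
  have h1 := hg v hv
  have h2 : deg (pend n k) v S ≤ 1 := by
    classical
    unfold deg
    rw [card_le_one]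
    intro a ha b hb
    rw [mem_filter] at ha hb
    have ha2 := ha.2.2
    have hb2 := hb.2.2
    apply Fin.ext
    omega
  omega

lemma pend_E {k m : ℕ} : k * (k + 1) + 2 * m ≤ E (pend (k + 1 + m) k) univ := by
  classical
  set n := k + 1 + m with hn
  set A := univ.filter fun v : Fin n => v.val ≤ k with hA
  have hAc : A.card = k + 1 := low_card n k (by omega)
  have hBc : (univ \ A).card = m := by
    rw [card_sdiff_of_subset (subset_univ _), card_univ, Fintype.card_fin, hAc]
    omega
  have hun : (univ : Finset (Fin n)) = A ∪ (univ \ A) := (union_sdiff_of_subset (subset_univ _)).symm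
  have h1 : E (pend n k) univ = E (pend n k) A + E (pend n k) (univ \ A) +
      2 * ∑ t ∈ univ \ A, deg (pend n k) t A := by
    conv_lhs => rw [hun]
    exact E_union disjoint_sdiff
  have h2 : k * (k + 1) ≤ E (pend n k) A := by
    unfold E
    calc k * (k + 1) = ∑ v ∈ A, k := by rw [sum_const, hAc, smul_eq_mul, mul_comm]
      _ ≤ ∑ v ∈ A, deg (pend n k) v A := by
          apply sum_le_sum
          intro v hv
          have h3 : A.erase v ⊆ A.filter fun u => (pend n k).Adj v u := by
            intro u hu
            rw [mem_erase] at hu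
            rw [mem_filter]
            refine ⟨hu.2, hu.1.symm, Or.inl ⟨(mem_filter.1 hv).2, (mem_filter.1 hu.2).2⟩⟩
          have h4 := card_le_card h3
          rw [card_erase_of_mem hv, hAc] at h4
          unfold deg
          simpa using h4
  have h3 : m ≤ ∑ t ∈ univ \ A, deg (pend n k) t A := by
    calc m = ∑ t ∈ univ \ A, 1 := by rw [sum_const, hBc]; simp
      _ ≤ ∑ t ∈ univ \ A, deg (pend n k) t A := by
          apply sum_le_sum
          intro t ht
          unfold deg
          rw [Nat.one_le_iff_ne_zero, ← Nat.pos_iff_ne_zero, card_pos]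
          refine ⟨⟨0, by omega⟩, ?_⟩
          rw [mem_filter, hA, mem_filter]
          refine ⟨⟨mem_univ _, Nat.zero_le _⟩, ?_, Or.inr (Or.inr rfl)⟩
          intro h
          rw [mem_sdiff, hA, mem_filter] at ht
          apply ht.2
          rw [h]
          exact ⟨mem_univ _, Nat.zero_le _⟩
  omega

theorem f_eq {k m : ℕ} (hmk : m + 1 ≤ k) :
    f (k + 1 + m) k + (k + 1).choose 2 + m = (k + 1 + m).choose 2 := by
  apply le_antisymm
  · have h1 := f_le (n := k + 1 + m) (k := k) (e := (k + 1).choose 2 + m) (pend (k + 1 + m) k)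
      (fun S hS => pend_not_good (by omega) S hS) (by
        have h2 := pend_E (k := k) (m := m)
        have h3 := two_choose (k + 1)
        have h7 : (k + 1) * (k + 1 - 1) = k * (k + 1) := by rw [Nat.add_sub_cancel]; ring
        rw [h7] at h3
        omega)
    omega
  · have hne : {e | ∃ G : SimpleGraph (Fin (k + 1 + m)), HasP k G ∧ G.edgeSet.ncard = e}.Nonempty :=
      ⟨_, (pend (k + 1 + m) k)ᶜ, by
        rw [hasP_iff, compl_compl]
        exact fun S hS => pend_not_good (by omega) S hS, rfl⟩
    obtain ⟨G, hG, hGe⟩ := Nat.sInf_mem hne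
    have h1 := lower hmk G hG
    rw [hGe] at h1
    exact h1

/-! ### the graph on `2k+1` vertices: a complete graph and a cycle sharing one vertex -/

/-- complete graph on `0, …, k` together with the cycle `0, k+1, k+2, …, 2k` -/
def tri (k : ℕ) : SimpleGraph (Fin (2 * k + 1)) where
  Adj u v := u ≠ v ∧ ((u.val ≤ k ∧ v.val ≤ k) ∨ (u.val + 1 = v.val ∧ k < u.val) ∨
    (v.val + 1 = u.val ∧ k < v.val) ∨ (u.val = 0 ∧ (v.val = k + 1 ∨ v.val = 2 * k)) ∨
    (v.val = 0 ∧ (u.val = k + 1 ∨ u.val = 2 * k)))
  symm := ⟨by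
    rintro u v ⟨h1, h2⟩
    refine ⟨h1.symm, ?_⟩
    tauto⟩
  loopless := ⟨fun u h => h.1 rfl⟩

lemma two_values {k : ℕ} {S : Finset (Fin (2 * k + 1))} (hg : Good (tri k) S)
    {v : Fin (2 * k + 1)} (hv : v ∈ S) {a b : ℕ}
    (hab : ∀ u : Fin (2 * k + 1), (tri k).Adj v u → u.val = a ∨ u.val = b) :
    (∃ u ∈ S, u.val = a) ∧ ∃ u ∈ S, u.val = b := by
  classical
  have h1 := hg v hv
  have h2 : 1 < (S.filter fun u => (tri k).Adj v u).card := by
    unfold deg at h1
    have : (S.filter fun u => (tri k).Adj v u).card =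
      (@Finset.filter _ (fun u => (tri k).Adj v u)
        (fun a => Classical.propDecidable ((fun u => (tri k).Adj v u) a)) S).card := by congr
    omega
  obtain ⟨x, hx, y, hy, hxy⟩ := one_lt_card.1 h2
  rw [mem_filter] at hx hy
  have hne : x.val ≠ y.val := fun h => hxy (Fin.ext h)
  rcases hab x hx.2 with h3 | h3 <;> rcases hab y hy.2 with h4 | h4
  · omega
  · exact ⟨⟨x, hx.1, h3⟩, ⟨y, hy.1, h4⟩⟩
  · exact ⟨⟨y, hy.1, h4⟩, ⟨x, hx.1, h3⟩⟩
  · omega

lemma tri_not_good {k : ℕ} (hk : 2 ≤ k) (S : Finset (Fin (2 * k + 1))) (hS : S.card = k + 2) :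
    ¬ Good (tri k) S := by
  classical
  intro hg
  obtain ⟨v, hv, hvk⟩ := exists_high (by omega) hS
  -- go up
  have hup : ∀ j, v.val + j ≤ 2 * k → ∃ u ∈ S, u.val = v.val + j := by
    intro j
    induction j with
    | zero => exact fun _ => ⟨v, hv, rfl⟩
    | succ j ih =>
      intro hj
      obtain ⟨u, hu, huj⟩ := ih (by omega)
      have h1 := two_values hg hu (a := u.val + 1) (b := if u.val = k + 1 then 0 else u.val - 1) (by
        intro w hw
        have hw2 := hw.2
        split_ifs with h <;> omega)
      obtain ⟨w, hw, hw2⟩ := h1.1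
      exact ⟨w, hw, by omega⟩
  obtain ⟨t, ht, htv⟩ := hup (2 * k - v.val) (by omega)
  have htv' : t.val = 2 * k := by have := v.isLt; omega
  have h2 := two_values hg ht (a := 0) (b := 2 * k - 1) (by
    intro w hw
    have hw2 := hw.2
    omega)
  obtain ⟨o, ho, ho0⟩ := h2.1
  -- go down
  have hdown : ∀ j, j + 1 ≤ k → ∃ u ∈ S, u.val + j = 2 * k := by
    intro j
    induction j with
    | zero => exact fun _ => ⟨t, ht, by omega⟩
    | succ j ih =>
      intro hj
      obtain ⟨u, hu, huj⟩ := ih (by omega)
      have h1 := two_values hg hu (a := u.val - 1) (b := if u.val = 2 * k then 0 else u.val + 1) (by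
        intro w hw
        have hw2 := hw.2
        split_ifs with h <;> omega)
      obtain ⟨w, hw, hw2⟩ := h1.1
      exact ⟨w, hw, by omega⟩
  -- the set `B` of the vertex `0` and the high vertices lies in `S`
  set L := univ.filter fun v : Fin (2 * k + 1) => v.val ≤ k with hL
  have hLc : L.card = k + 1 := low_card _ k (by omega)
  set z : Fin (2 * k + 1) := ⟨0, by omega⟩ with hz
  set B := insert z (univ \ L) with hB
  have hzL : z ∉ univ \ L := by
    rw [mem_sdiff, hL, mem_filter]
    push Not
    intro _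
    exact ⟨mem_univ _, Nat.zero_le _⟩
  have hBc : B.card = k + 1 := by
    rw [hB, card_insert_of_notMem hzL, card_sdiff_of_subset (subset_univ _), card_univ,
      Fintype.card_fin, hLc]
    omega
  have hBS : B ⊆ S := by
    intro x hx
    rw [hB, mem_insert] at hx
    rcases hx with rfl | hx
    · have : o = z := Fin.ext ho0
      rwa [← this]
    · rw [mem_sdiff, hL, mem_filter] at hx
      have hxk : k < x.val := by
        by_contra h
        exact hx.2 ⟨mem_univ _, by omega⟩
      have hxlt := x.isLt
      obtain ⟨u, hu, huj⟩ := hdown (2 * k - x.val) (by omega)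
      have : u = x := Fin.ext (by omega)
      rwa [← this]
  have hone : (S \ B).card = 1 := by
    rw [card_sdiff_of_subset hBS]; omega
  obtain ⟨y, hy⟩ := card_eq_one.1 hone
  have hyS : y ∈ S \ B := by rw [hy]; exact mem_singleton_self _
  rw [mem_sdiff] at hyS
  have hy0 : y.val ≠ 0 := by
    intro h
    apply hyS.2
    rw [hB, mem_insert]
    exact Or.inl (Fin.ext h)
  have hyk : y.val ≤ k := by
    by_contra h
    apply hyS.2
    rw [hB, mem_insert, mem_sdiff, hL, mem_filter]
    refine Or.inr ⟨mem_univ _, ?_⟩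
    rintro ⟨_, h'⟩
    exact h h'
  have h3 := hg y hyS.1
  have h4 : deg (tri k) y S ≤ 1 := by
    unfold deg
    rw [card_le_one]
    have key : ∀ a, a ∈ S → (tri k).Adj y a → a = z := by
      intro a ha hadj
      by_contra hne
      have haB : a ∉ B := by
        intro h
        rw [hB, mem_insert, mem_sdiff, hL, mem_filter] at h
        rcases h with h | h
        · exact hne h
        · have hak : k < a.val := by
            by_contra h'
            exact h.2 ⟨mem_univ _, by omega⟩
          have h5 := hadj.2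
          omega
      have h6 : a ∈ S \ B := mem_sdiff.2 ⟨ha, haB⟩
      rw [hy, mem_singleton] at h6
      exact hadj.1 h6.symm
    intro a ha b hb
    rw [mem_filter] at ha hb
    rw [key a ha.1 ha.2, key b hb.1 hb.2]
  omega

lemma tri_E {k : ℕ} (hk : 2 ≤ k) : k * (k + 1) + 2 * (k + 1) ≤ E (tri k) univ := by
  classical
  set A := univ.filter fun v : Fin (2 * k + 1) => v.val ≤ k with hA
  have hAc : A.card = k + 1 := low_card _ k (by omega)
  have hBc : (univ \ A).card = k := by
    rw [card_sdiff_of_subset (subset_univ _), card_univ, Fintype.card_fin, hAc]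
    omega
  have hun : (univ : Finset (Fin (2 * k + 1))) = A ∪ (univ \ A) :=
    (union_sdiff_of_subset (subset_univ _)).symm
  have hz : (⟨0, by omega⟩ : Fin (2 * k + 1)) ∈ A := by
    rw [hA, mem_filter]; exact ⟨mem_univ _, Nat.zero_le _⟩
  have h0 : E (tri k) univ = ∑ v ∈ A, deg (tri k) v univ + ∑ v ∈ univ \ A, deg (tri k) v univ := by
    unfold E
    conv_lhs => rw [hun]
    rw [sum_union disjoint_sdiff, ← hun]
  have hdegA : ∀ v ∈ A, k + (if v.val = 0 then 2 else 0) ≤ deg (tri k) v univ := by
    intro v hv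
    have hvk := (mem_filter.1 hv).2
    unfold deg
    by_cases hv0 : v.val = 0
    · rw [if_pos hv0]
      have h3 : (A.erase v) ∪ {⟨k + 1, by omega⟩, ⟨2 * k, by omega⟩} ⊆
          univ.filter fun u => (tri k).Adj v u := by
        intro u hu
        rw [mem_filter]
        refine ⟨mem_univ _, ?_⟩
        rw [mem_union, mem_erase, mem_insert, mem_singleton] at hu
        rcases hu with hu | hu | hu
        · exact ⟨hu.1.symm, Or.inl ⟨hvk, (mem_filter.1 hu.2).2⟩⟩
        · rw [hu]
          refine ⟨fun h => ?_, Or.inr (Or.inr (Or.inr (Or.inl ⟨hv0, Or.inl rfl⟩)))⟩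
          rw [h] at hv0
          simp at hv0
        · rw [hu]
          refine ⟨fun h => ?_, Or.inr (Or.inr (Or.inr (Or.inl ⟨hv0, Or.inr rfl⟩)))⟩
          rw [h] at hv0
          simp at hv0
          omega
      have h4 := card_le_card h3
      rw [card_union_of_disjoint, card_erase_of_mem hv, hAc, card_pair] at h4
      · simpa using h4
      · intro h
        have := congrArg Fin.val h
        simp at this
        omega
      · rw [disjoint_left]
        intro u hu hu'
        rw [mem_erase, hA, mem_filter] at hu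
        rw [mem_insert, mem_singleton] at hu'
        have h5 := hu.2.2
        rcases hu' with rfl | rfl
        · simp at h5
        · simp at h5
          omega
    · rw [if_neg hv0, add_zero]
      have h3 : A.erase v ⊆ univ.filter fun u => (tri k).Adj v u := by
        intro u hu
        rw [mem_erase] at hu
        rw [mem_filter]
        exact ⟨mem_univ _, hu.1.symm, Or.inl ⟨hvk, (mem_filter.1 hu.2).2⟩⟩
      have h4 := card_le_card h3
      rw [card_erase_of_mem hv, hAc] at h4
      simpa using h4
  have hdegB : ∀ v ∈ univ \ A, 2 ≤ deg (tri k) v univ := by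
    intro v hv
    have hvk : k < v.val := by
      rw [mem_sdiff, hA, mem_filter] at hv
      by_contra h
      exact hv.2 ⟨mem_univ _, by omega⟩
    have hvlt := v.isLt
    unfold deg
    rw [Nat.succ_le_iff, one_lt_card]
    refine ⟨if h : v.val = k + 1 then ⟨0, by omega⟩ else ⟨v.val - 1, by omega⟩, ?_,
      if h : v.val = 2 * k then ⟨0, by omega⟩ else ⟨v.val + 1, by omega⟩, ?_, ?_⟩
    · rw [mem_filter]
      refine ⟨mem_univ _, ?_⟩
      split_ifs with h
      · refine ⟨fun h' => ?_, Or.inr (Or.inr (Or.inr (Or.inr ⟨rfl, Or.inl h⟩)))⟩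
        have h5 := congrArg Fin.val h'
        dsimp only at h5
        omega
      · refine ⟨fun h' => ?_, Or.inr (Or.inr (Or.inl ⟨?_, ?_⟩))⟩
        · have h5 := congrArg Fin.val h'
          dsimp only at h5
          omega
        · dsimp only
          omega
        · dsimp only
          omega
    · rw [mem_filter]
      refine ⟨mem_univ _, ?_⟩
      split_ifs with h
      · refine ⟨fun h' => ?_, Or.inr (Or.inr (Or.inr (Or.inr ⟨rfl, Or.inr h⟩)))⟩
        have h5 := congrArg Fin.val h'
        dsimp only at h5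
        omega
      · refine ⟨fun h' => ?_, Or.inr (Or.inl ⟨rfl, hvk⟩)⟩
        have h5 := congrArg Fin.val h'
        dsimp only at h5
        omega
    · intro h'
      have h5 := congrArg Fin.val h'
      by_cases h1 : v.val = k + 1 <;> by_cases h2 : v.val = 2 * k
      · omega
      · rw [dif_pos h1, dif_neg h2] at h5
        dsimp only at h5
        omega
      · rw [dif_neg h1, dif_pos h2] at h5
        dsimp only at h5
        omega
      · rw [dif_neg h1, dif_neg h2] at h5
        dsimp only at h5
        omega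
  have h1 : k * (k + 1) + 2 ≤ ∑ v ∈ A, deg (tri k) v univ := by
    calc k * (k + 1) + 2 = ∑ v ∈ A, k + ∑ v ∈ A, (if v.val = 0 then 2 else 0) := by
          rw [sum_const, hAc, smul_eq_mul, mul_comm]
          congr 1
          rw [sum_eq_single_of_mem _ hz]
          · simp
          · intro b _ hb
            rw [if_neg]
            intro h
            exact hb (Fin.ext h)
      _ = ∑ v ∈ A, (k + if v.val = 0 then 2 else 0) := by rw [sum_add_distrib]
      _ ≤ ∑ v ∈ A, deg (tri k) v univ := sum_le_sum hdegA
  have h2 : 2 * k ≤ ∑ v ∈ univ \ A, deg (tri k) v univ := by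
    calc 2 * k = ∑ v ∈ univ \ A, 2 := by rw [sum_const, hBc, smul_eq_mul, mul_comm]
      _ ≤ ∑ v ∈ univ \ A, deg (tri k) v univ := sum_le_sum hdegB
  rw [h0]
  omega

theorem f_two_mul_add_one {k : ℕ} (hk : 2 ≤ k) :
    f (2 * k + 1) k + (k + 1).choose 2 + (k + 1) ≤ (2 * k + 1).choose 2 := by
  have h1 := f_le (n := 2 * k + 1) (k := k) (e := (k + 1).choose 2 + (k + 1)) (tri k)
    (fun S hS => tri_not_good hk S hS) (by
      have h2 := tri_E hk
      have h3 := two_choose (k + 1)
      have h7 : (k + 1) * (k + 1 - 1) = k * (k + 1) := by rw [Nat.add_sub_cancel]; ring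
      rw [h7] at h3
      omega)
  omega

end Pool.Agent.Results.MP_d31508_co.UpToTwiceK

open Pool.Agent.Results.MP_d31508_co.UpToTwiceK in
theorem Pool.Agent.Results.MP_d31508_co.UpToTwiceK.result :
    (∀ n k : ℕ, k + 2 ≤ n → n ≤ 2 * k →
      f n k + (k + 1).choose 2 + (n - k - 1) = n.choose 2) ∧
    (∀ k : ℕ, 2 ≤ k → f (2 * k + 1) k + (k + 1).choose 2 + (k + 1) ≤ (2 * k + 1).choose 2) := by
  refine ⟨fun n k h1 h2 => ?_, fun k hk => f_two_mul_add_one hk⟩
  obtain ⟨m, rfl⟩ : ∃ m, n = k + 1 + m := ⟨n - k - 1, by omega⟩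
  have h3 : k + 1 + m - k - 1 = m := by omega
  rw [h3]
  exact f_eq (by omega)
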